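import Mathlib

set_option autoImplicit false

namespace Pool.Agent.Results.MP_91ff8f_lc.Poly

open Finset

theorem inter {α ι κ : Type} [DecidableEq α] (w : α → ℝ) (hw : ∀ u, 0 ≤ w u) (T : ι → α → Prop)
    (S : κ → α → Prop) [DecidableRel T] [DecidableRel S] : ∀ (N : ℕ) (U : Finset α) (X : Finset ι)
    (Y : Finset κ) (t : ℝ), U.card = N → Y.Nonempty → (∀ y ∈ Y, ∑ u ∈ U with S y u, w u ≤ t) →
    (∀ x ∈ X, t < ∑ u ∈ U with T x u, w u) →
    (∀ x ∈ X, ∀ x' ∈ X, x ≠ x' → ∃ y ∈ Y, ∀ u ∈ U, T x u → T x' u → S y u) →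
    X.card ≤ U.card * Y.card := by
  classical
  intro N
  induction N using Nat.strong_induction_on with
  | _ N ih =>
    intro U X Y t hU hY h1 h2 h3
    set U1 := U.filter fun u => ∃ y ∈ Y, S y u with hU1
    set U0 := U.filter fun u => ¬∃ y ∈ Y, S y u with hU0
    set X1 := X.filter fun x => ¬∃ u ∈ U0, T x u with hX1
    have e1 : U1.card + U0.card = U.card := card_filter_add_card_filter_not _
    have a0 : (X.filter fun x => ∃ u ∈ U0, T x u).card ≤ U0.card := by
      refine card_le_card_of_forall_subsingleton (fun x u => T x u)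
        (fun x hx => (mem_filter.1 hx).2) fun u hu x hx x' hx' => by_contra fun hne => ?_
      obtain ⟨y, hy, h⟩ := h3 x (mem_filter.1 hx.1).1 x' (mem_filter.1 hx'.1).1 hne
      exact (mem_filter.1 hu).2 ⟨y, hy, h u (mem_filter.1 hu).1 hx.2 hx'.2⟩
    have s1 : ∀ x ∈ X1, U.filter (T x) = U1.filter (T x) := fun x hx => by
      ext u
      simp only [hU1, mem_filter, and_congr_left_iff, iff_self_and]
      exact fun h hu => by_contra fun h' => (mem_filter.1 hx).2 ⟨u, mem_filter.2 ⟨hu, h'⟩, h⟩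
    have s2 : ∀ y ∈ Y, U.filter (S y) = U1.filter (S y) := fun y hy => by
      ext u
      simp only [hU1, mem_filter, and_congr_left_iff, iff_self_and]
      exact fun h _ => ⟨y, hy, h⟩
    have sp : ∀ (p : α → Prop) [DecidablePred p], ∀ u ∈ U1, p u →
        ∑ v ∈ U1.erase u with p v, w v = ∑ v ∈ U1 with p v, w v - w u := fun p _ u hu hp => by
      rw [filter_erase, sum_erase_eq_sub (mem_filter.2 ⟨hu, hp⟩)]
    have a1 : ∀ u ∈ U1, (X1.filter (T · u)).card ≤ U1.card * (Y.filter (S · u)).card := by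
      intro u hu
      have hc := card_erase_lt_of_mem hu
      refine (ih _ (by omega) (U1.erase u) _ _ (t - w u) rfl ?_ (fun y hy => ?_) (fun x hx => ?_)
        fun x hx x' hx' hne => ?_).trans (Nat.mul_le_mul_right _ hc.le)
      · obtain ⟨y, hy, h⟩ := (mem_filter.1 hu).2
        exact ⟨y, mem_filter.2 ⟨hy, h⟩⟩
      · obtain ⟨hy, h⟩ := mem_filter.1 hy
        rw [sp _ u hu h, ← s2 y hy]
        linarith [h1 y hy]
      · obtain ⟨hx, h⟩ := mem_filter.1 hx
        rw [sp _ u hu h, ← s1 x hx]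
        linarith [h2 x (mem_filter.1 hx).1]
      · obtain ⟨hx, h⟩ := mem_filter.1 hx
        obtain ⟨hx', h'⟩ := mem_filter.1 hx'
        obtain ⟨y, hy, h4⟩ := h3 x (mem_filter.1 hx).1 x' (mem_filter.1 hx').1 hne
        exact ⟨y, mem_filter.2 ⟨hy, h4 u (mem_filter.1 hu).1 h h'⟩,
          fun v hv => h4 v (mem_filter.1 (mem_of_mem_erase hv)).1⟩
    have a2 : X1.card ≤ U1.card * Y.card := by
      rcases X1.eq_empty_or_nonempty with e | hne
      · simp [e]
      obtain ⟨y0, hy0⟩ := hY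
      have t0 : 0 ≤ t := (sum_nonneg fun u _ => hw u).trans (h1 y0 hy0)
      have b1 : t * X1.card < t * (U1.card * Y.card) := by
        calc t * X1.card = ∑ _x ∈ X1, t := by simp [mul_comm]
          _ < ∑ x ∈ X1, ∑ u ∈ U1 with T x u, w u := sum_lt_sum_of_nonempty hne fun x hx => by
              rw [← s1 x hx]; exact h2 x (mem_filter.1 hx).1
          _ = ∑ u ∈ U1, w u * (X1.filter (T · u)).card := by
              simp only [sum_filter, card_filter]
              rw [sum_comm]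
              simp [mul_sum, -sum_boole]
          _ ≤ ∑ u ∈ U1, w u * (U1.card * (Y.filter (S · u)).card) := sum_le_sum fun u hu =>
              mul_le_mul_of_nonneg_left (by exact_mod_cast a1 u hu) (hw u)
          _ = U1.card * ∑ y ∈ Y, ∑ u ∈ U1 with S y u, w u := by
              simp only [sum_filter, card_filter]
              rw [sum_comm, mul_sum]
              refine sum_congr rfl fun u _ => ?_
              rw [mul_left_comm]
              simp [mul_sum, -sum_boole]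
          _ ≤ U1.card * ∑ _y ∈ Y, t := mul_le_mul_of_nonneg_left
              (sum_le_sum fun y hy => by rw [← s2 y hy]; exact h1 y hy) (by positivity)
          _ = _ := by simp; ring
      exact_mod_cast (lt_of_mul_lt_mul_left b1 t0).le
    have e2 := card_filter_add_card_filter_not (s := X) fun x => ∃ u ∈ U0, T x u
    have := card_pos.2 hY
    rw [← e1, ← e2]
    nlinarith

theorem len (V : Finset ℕ) : ∃ l : ℕ → ℕ, (∀ z ∈ V, ∑ v ∈ V with v ≤ z, l v = z) ∧
    ∀ a, (∀ v ∈ V, v ≤ a) → ∑ v ∈ V, l v ≤ a := by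
  induction V using Finset.induction_on_max with
  | empty => exact ⟨id, by simp, by simp⟩
  | insert a V h ih =>
    obtain ⟨l, h1, h2⟩ := ih
    have ha : a ∉ V := fun h' => lt_irrefl _ (h a h')
    have h3 := h2 a fun v hv => (h v hv).le
    have e : ∀ s ⊆ V, ∑ v ∈ s, Function.update l a (a - ∑ v ∈ V, l v) v = ∑ v ∈ s, l v :=
      fun s hs => sum_congr rfl fun v hv => Function.update_of_ne (h v (hs hv)).ne _ _
    have e2 : ∑ v ∈ insert a V, Function.update l a (a - ∑ v ∈ V, l v) v = a := by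
      rw [sum_insert ha, e V subset_rfl, Function.update_self]; omega
    refine ⟨Function.update l a (a - ∑ v ∈ V, l v), fun z hz => ?_,
      fun b hb => e2.trans_le (hb a (mem_insert_self _ _))⟩
    rcases mem_insert.1 hz with rfl | hz
    · rw [filter_true_of_mem fun v hv => ?_, e2]
      rcases mem_insert.1 hv with rfl | hv
      exacts [le_rfl, (h v hv).le]
    · rw [filter_insert, if_neg (h z hz).not_ge, e _ (filter_subset _ _), h1 z hz]

theorem quad {n d : ℕ} (A : Matrix (Fin d) (Fin n) ℝ) (hA : ∀ k i, 0 ≤ A k i)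
    (Y0 X Y : Finset (Fin n → ℕ)) (hY : Y ⊆ Y0)
    (h0 : ∀ x ∈ X, ∀ i, x i = 0 ∨ ∃ y ∈ Y0, x i = y i + 1)
    (h1 : ∀ x ∈ X, ∀ y ∈ Y, ∑ k, (∑ i, A k i * y i) ^ 2 < ∑ k, (∑ i, A k i * x i) ^ 2)
    (h2 : ∀ x ∈ X, ∀ x' ∈ X, x ≠ x' → ∃ y ∈ Y, x ⊓ x' ≤ y) :
    X.card ≤ (n * (2 * Y0.card + 1)) ^ 2 * Y0.card + 1 := by
  classical
  rcases Y.eq_empty_or_nonempty with rfl | hne
  · refine (card_le_one.2 fun x hx x' hx' => by_contra fun h => ?_).trans (by omega)
    simpa using h2 x hx x' hx' h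
  let V : Fin n → Finset ℕ := fun i => insert 0 (Y0.image (· i) ∪ Y0.image (· i + 1))
  choose l hl _ using fun i => len (V i)
  let U : Finset (Σ _ : Fin n, ℕ) := univ.sigma V
  have hU : U.card ≤ n * (2 * Y0.card + 1) := by
    rw [card_sigma]
    refine (sum_le_card_nsmul _ _ (2 * Y0.card + 1) fun i _ => ?_).trans (by simp)
    have a1 := card_union_le (Y0.image (· i)) (Y0.image (· i + 1))
    have a2 := card_image_le (s := Y0) (f := (· i))
    have a3 := card_image_le (s := Y0) (f := (· i + 1))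
    exact (card_insert_le _ _).trans (by omega)
  have key : ∀ z : Fin n → ℕ, (∀ i, z i ∈ V i) →
      ∑ u ∈ U ×ˢ U with u.1.2 ≤ z u.1.1 ∧ u.2.2 ≤ z u.2.1,
        ∑ k, A k u.1.1 * l u.1.1 u.1.2 * (A k u.2.1 * l u.2.1 u.2.2) =
      ∑ k, (∑ i, A k i * z i) ^ 2 := by
    intro z hz
    rw [filter_product (fun u : (Σ _ : Fin n, ℕ) => u.2 ≤ z u.1)
      (fun u : (Σ _ : Fin n, ℕ) => u.2 ≤ z u.1), sum_comm]
    refine sum_congr rfl fun k _ => ?_
    rw [sum_product]
    dsimp only
    rw [← sum_mul_sum, ← sq]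
    congr 1
    rw [filter_sigma, sum_sigma]
    refine sum_congr rfl fun i _ => ?_
    rw [← hl i _ (hz i), Nat.cast_sum, mul_sum]
  obtain ⟨y0, hy0, hm⟩ := exists_max_image Y (fun y => ∑ k, (∑ i, A k i * y i) ^ 2) hne
  have := inter (fun u : (Σ _ : Fin n, ℕ) × (Σ _ : Fin n, ℕ) =>
      ∑ k, A k u.1.1 * l u.1.1 u.1.2 * (A k u.2.1 * l u.2.1 u.2.2))
    (fun u => sum_nonneg fun k _ => by have := hA k u.1.1; have := hA k u.2.1; positivity)
    (fun (z : Fin n → ℕ) u => u.1.2 ≤ z u.1.1 ∧ u.2.2 ≤ z u.2.1)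
    (fun (z : Fin n → ℕ) u => u.1.2 ≤ z u.1.1 ∧ u.2.2 ≤ z u.2.1) _ (U ×ˢ U) X Y _ rfl hne
    (fun y hy => (key y fun i => by simp only [V, mem_insert, mem_union, mem_image]
                                    exact Or.inr (Or.inl ⟨y, hY hy, rfl⟩)).trans_le (hm y hy))
    (fun x hx => (h1 x hx y0 hy0).trans_eq (key x fun i => by
      simp only [V, mem_insert, mem_union, mem_image]
      exact (h0 x hx i).imp id fun ⟨y, hy, e⟩ => Or.inr ⟨y, hy, e.symm⟩).symm)
    fun x hx x' hx' h => (h2 x hx x' hx' h).imp fun y hy => ⟨hy.1, fun u _ a b =>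
      ⟨(le_min a.1 b.1).trans (hy.2 _), (le_min a.2 b.2).trans (hy.2 _)⟩⟩
  rw [card_product, ← sq] at this
  exact this.trans ((Nat.mul_le_mul (Nat.pow_le_pow_left hU 2) (card_le_card hY)).trans (by omega))

/-- minimal elements of the box `0 ≤ x ≤ c` that are dominated by no member of `𝒜` -/
def Ind {n : ℕ} (c : Fin n → ℕ) (𝒜 : Set (Fin n → ℕ)) : Set (Fin n → ℕ) :=
  {x | Minimal (fun x => x ≤ c ∧ ∀ a ∈ 𝒜, ¬x ≤ a) x}

/-- maximal elements of the box that satisfy `‖A x‖₂ + b ⬝ x ≤ t` -/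
def MaxFeas {n d : ℕ} (A : Matrix (Fin d) (Fin n) ℝ) (b : Fin n → ℝ) (t : ℝ) (c : Fin n → ℕ) :
    Set (Fin n → ℕ) :=
  {x | Maximal (fun x => x ≤ c ∧ √(∑ k, (∑ i, A k i * x i) ^ 2) + ∑ i, b i * x i ≤ t) x}

/-- A polynomial dual bound, independent of the number of rows. -/
theorem result {n d : ℕ} (A : Matrix (Fin d) (Fin n) ℝ) (hA : ∀ k i, 0 ≤ A k i) (b : Fin n → ℝ)
    (hb : ∀ i, 0 ≤ b i) (t : ℝ) (c : Fin n → ℕ) (Y : Finset (Fin n → ℕ))
    (hY : ↑Y ⊆ MaxFeas A b t c) :
    (Ind c Y ∩ Ind c (MaxFeas A b t c)).Finite ∧ (Ind c Y ∩ Ind c (MaxFeas A b t c)).ncard ≤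
      (Y.card + 1) * (n * Y.card + 1) * ((n * (2 * Y.card + 1)) ^ 2 * Y.card + 1) := by
  classical
  have hf : (Ind c Y ∩ Ind c (MaxFeas A b t c)).Finite :=
    (Set.finite_Iic c).subset fun x hx => hx.1.1.1
  refine ⟨hf, ?_⟩
  rw [Set.ncard_eq_toFinset_card _ hf]
  set X := hf.toFinset
  have hX : ∀ x ∈ X, x ∈ Ind c Y ∧ x ∈ Ind c (MaxFeas A b t c) := fun x hx => hf.mem_toFinset.1 hx
  let β : (Fin n → ℕ) → ℝ := fun x => ∑ i, b i * x i
  have inf : ∀ x ∈ X, t < √(∑ k, (∑ i, A k i * x i) ^ 2) + β x := fun x hx => by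
    by_contra h
    obtain ⟨a, h1, h2⟩ := Set.Finite.exists_le_maximal (s := {x | x ≤ c ∧
      √(∑ k, (∑ i, A k i * x i) ^ 2) + ∑ i, b i * x i ≤ t})
      ((Set.finite_Iic c).subset fun x hx => hx.1) (a := x) ⟨(hX x hx).1.1.1, not_lt.1 h⟩
    exact (hX x hx).2.1.2 a h2 h1
  let D : (Fin n → ℕ) → Fin n → (Fin n → ℕ) → Prop := fun x i y =>
    x i = y i + 1 ∧ ∀ j, j ≠ i → x j ≤ y j
  have dom : ∀ x ∈ X, ∀ i, x i ≠ 0 → ∃ y ∈ Y, D x i y := fun x hx i hi => by
    have hm := (hX x hx).1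
    have l1 : Function.update x i (x i - 1) ≤ x := update_le_self_iff.2 (Nat.sub_le _ _)
    by_contra h
    have h5 : x i ≤ Function.update x i (x i - 1) i := by
      refine hm.2 ⟨l1.trans hm.1.1, fun y hy hl => h ⟨y, hy, ?_, fun j hj => ?_⟩⟩ l1 i
      · have a1 : Function.update x i (x i - 1) i ≤ y i := hl i
        rw [Function.update_self] at a1
        by_contra a2
        refine hm.1.2 y hy fun j => ?_
        show x j ≤ y j
        rcases eq_or_ne j i with e | hj
        · rw [e]; omega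
        · simpa [hj] using hl j
      · simpa [hj] using hl j
    rw [Function.update_self] at h5
    omega
  let Y1 : (Fin n → ℕ) → Finset (Fin n → ℕ) := fun x => Y.filter fun y => β y < β x
  have cl : ∀ x ∈ X, ∃ o ∈ insertNone (univ ×ˢ Y), (∀ j, (∃ y ∈ Y1 x, D x j y) →
      ∃ p ∈ o, b p.1 ≤ b j) ∧ ∀ p ∈ o, ∀ j, b p.1 ≤ b j →
        x j = p.2 j + if j = p.1 then 1 else 0 := by
    intro x hx
    rcases (univ.filter fun i => ∃ y ∈ Y1 x, D x i y).eq_empty_or_nonempty with e | hne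
    · exact ⟨none, none_mem_insertNone, fun j hj =>
        (filter_eq_empty_iff.1 e (mem_univ j) hj).elim, by simp⟩
    obtain ⟨i, hi, hm⟩ := exists_min_image _ b hne
    obtain ⟨y, hy, h1, h2⟩ := (mem_filter.1 hi).2
    refine ⟨some (i, y), by simpa using (mem_filter.1 hy).1,
      fun j hj => ⟨_, rfl, hm j (mem_filter.2 ⟨mem_univ _, hj⟩)⟩, ?_⟩
    rintro _ ⟨⟩ j h4
    dsimp only at h4 ⊢
    split_ifs with h
    · rw [h, h1]
    refine le_antisymm (h2 j h) (not_lt.1 fun h3 => ?_)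
    refine (mem_filter.1 hy).2.not_ge ?_
    calc β x ≤ ∑ k, (b k * y k + (if k = i then b i else 0) - if k = j then b j else 0) :=
          sum_le_sum fun k _ => by
            have := hb k
            split_ifs with a1 a2 a2
            · exact absurd (a2.symm.trans a1) h
            · rw [a1, h1]; push_cast; linarith
            · have : (x j : ℝ) + 1 ≤ y j := by exact_mod_cast h3
              have := hb j
              rw [a2]; nlinarith
            · have : (x k : ℝ) ≤ y k := by exact_mod_cast h2 k a1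
              nlinarith
      _ ≤ β y := by simp [sum_sub_distrib, sum_add_distrib, β]; linarith
  choose! o ho1 ho2 ho3 using cl
  refine (card_le_mul_card_image_of_maps_to (f := fun x => ((Y1 x).card, o x))
    (t := range (Y.card + 1) ×ˢ insertNone (univ ×ˢ Y)) (fun x hx => mem_product.2
      ⟨mem_range.2 (Nat.lt_succ_of_le (card_filter_le _ _)), ho1 x hx⟩) _
    fun p _ => ?_).trans (by
      rw [card_product, card_range, card_insertNone, card_product, card_univ, Fintype.card_fin,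
        mul_comm])
  set Z := X.filter fun x => ((Y1 x).card, o x) = p
  rcases Z.eq_empty_or_nonempty with e | ⟨z, hz⟩
  · simp [e]
  have same : ∀ x ∈ Z, Y1 x = Y1 z := fun x hx => by
    have e := congrArg Prod.fst ((mem_filter.1 hx).2.trans (mem_filter.1 hz).2.symm)
    have mono : ∀ {u v}, β u ≤ β v → Y1 u ⊆ Y1 v := fun h =>
      monotone_filter_right _ fun y _ hy => lt_of_lt_of_le hy h
    rcases le_total (β x) (β z) with h | h
    · exact eq_of_subset_of_card_le (mono h) e.ge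
    · exact (eq_of_subset_of_card_le (mono h) e.le).symm
  refine quad A hA Y Z (Y \ Y1 z) sdiff_subset (fun x hx i => or_iff_not_imp_left.2 fun h =>
    (dom x (mem_filter.1 hx).1 i h).imp fun y hy => ⟨hy.1, hy.2.1⟩) (fun x hx y hy => ?_)
    fun x hx x' hx' hne => ?_
  · obtain ⟨hy, h1⟩ := mem_sdiff.1 hy
    rw [← same x hx] at h1
    have h2 : β x ≤ β y := not_lt.1 fun h => h1 (mem_filter.2 ⟨hy, h⟩)
    have h3 := (hY hy).1.2
    have h4 := inf x (mem_filter.1 hx).1
    refine lt_of_not_ge fun h => ?_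
    have := Real.sqrt_le_sqrt h
    simp only [β] at *
    linarith
  · have hx1 := (mem_filter.1 hx).1
    have hx1' := (mem_filter.1 hx').1
    obtain ⟨i, hi⟩ : ∃ i, x' i < x i := by
      by_contra h
      have a1 : x ≤ x' := fun i => not_lt.1 fun h' => h ⟨i, h'⟩
      exact hne (a1.antisymm ((hX x' hx1').1.2 (hX x hx1).1.1 a1))
    obtain ⟨y, hy, h1, h2⟩ := dom x hx1 i (by omega)
    refine ⟨y, mem_sdiff.2 ⟨hy, fun h => ?_⟩, fun j => ?_⟩
    · rw [← same x hx] at h
      obtain ⟨q, a1, a2⟩ := ho2 x hx1 i ⟨y, h, h1, h2⟩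
      have e : o x = o x' := congrArg Prod.snd ((mem_filter.1 hx).2.trans (mem_filter.1 hx').2.symm)
      have a3 := ho3 x hx1 q a1 i a2
      have a4 := ho3 x' hx1' q (e ▸ a1) i a2
      omega
    · show min (x j) (x' j) ≤ y j
      rcases eq_or_ne j i with e | hj
      · rw [e]; omega
      · exact (min_le_left _ _).trans (h2 j hj)

end Pool.Agent.Results.MP_91ff8f_lc.Poly
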